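import Mathlib

/-!
# TQ7: comparison of the homogeneous parts (for helper13, MP_51eb24_ag)
-/

set_option autoImplicit false

namespace Pool.Agent.L5helper13.TQ

/-- a vector-valued polynomial of degree at most four without constant term which vanishes at
`1, -1, 2, -2` is zero -/
theorem four_zero (k : Type) [Field k] [CharZero k] (V : Type) [AddCommGroup V] [Module k V]
    (u1 u2 u3 u4 : V)
    (h : ∀ c : k, c • u1 + (c ^ 2) • u2 + (c ^ 3) • u3 + (c ^ 4) • u4 = 0) :
    u1 = 0 ∧ u2 = 0 ∧ u3 = 0 ∧ u4 = 0 := by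
  have e1 := h 1
  have e2 := h (-1)
  have e3 := h 2
  have e4 := h (-2)
  have k4 : (24 : k) • u4 = 0 := by
    linear_combination (norm := module) e3 + e4 - (4 : k) • e1 - (4 : k) • e2
  have h4 : u4 = 0 := (smul_eq_zero.1 k4).resolve_left (by norm_num)
  have k3 : (12 : k) • u3 = 0 := by
    linear_combination (norm := module) e3 - e4 - (2 : k) • e1 + (2 : k) • e2
  have h3 : u3 = 0 := (smul_eq_zero.1 k3).resolve_left (by norm_num)
  rw [h3, h4] at e1 e2
  have k2 : (2 : k) • u2 = 0 := by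
    linear_combination (norm := module) e1 + e2
  have h2 : u2 = 0 := (smul_eq_zero.1 k2).resolve_left (by norm_num)
  have k1 : (2 : k) • u1 = 0 := by
    linear_combination (norm := module) e1 - e2
  have h1 : u1 = 0 := (smul_eq_zero.1 k1).resolve_left (by norm_num)
  exact ⟨h1, h2, h3, h4⟩

/-- TQ7 -/
theorem compare (k : Type) [Field k] [CharZero k] (V : Type) [AddCommGroup V] [Module k V]
    (l1 l2 l3 : V →ₗ[k] V) (B1 B2 B3 : V →ₗ[k] V →ₗ[k] V) (hsym : ∀ x y, B2 x y = B2 y x)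
    (h : ∀ x, l1 x + B1 x x = l2 (l3 x + B3 x x) + B2 (l3 x + B3 x x) (l3 x + B3 x x)) (x : V) :
    l1 x = l2 (l3 x) ∧ B1 x x = l2 (B3 x x) + B2 (l3 x) (l3 x) ∧ B2 (l3 x) (B3 x x) = 0 ∧
      B2 (B3 x x) (B3 x x) = 0 := by
  have key := four_zero k V (l1 x - l2 (l3 x)) (B1 x x - l2 (B3 x x) - B2 (l3 x) (l3 x))
    ((-2 : k) • B2 (l3 x) (B3 x x)) (-B2 (B3 x x) (B3 x x)) (by
      intro c
      have h1 := h (c • x)
      simp only [map_smul, map_add, LinearMap.smul_apply, LinearMap.add_apply] at h1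
      rw [hsym (B3 x x) (l3 x)] at h1
      linear_combination (norm := module) h1)
  obtain ⟨k1, k2, k3, k4⟩ := key
  refine ⟨sub_eq_zero.1 k1, ?_, ?_, neg_eq_zero.1 k4⟩
  · rw [sub_sub] at k2
    exact sub_eq_zero.1 k2
  · exact (smul_eq_zero.1 k3).resolve_left (by norm_num)

end Pool.Agent.L5helper13.TQ
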